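import Mathlib
import Pool.Agent.TH951.W.UB.Gen

/-!
# Definitions: polynomials of small degree over function fields of positive characteristic
-/

namespace Pool.Agent.Y706.SB

open Polynomial Pool.Agent.TH951.W.UB

universe u v w

/-- the conjugate of `f` by `X ↦ y X + b` -/
noncomputable def aff {K : Type*} [Field K] (y b : K) (f : K[X]) : K[X] :=
  C y⁻¹ * (f.comp (C y * X + C b) - C b)

/-- `f` is conjugate over `L` to a polynomial with coefficients in `k` -/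
def Iso (k : Type*) {L : Type*} [Field k] [Field L] [Algebra k L] (f : L[X]) : Prop :=
  ∃ y b : L, y ≠ 0 ∧ ∀ m, ∃ c : k, algebraMap k L c = (aff y b f).coeff m

/-- `g` is the `j`-th Frobenius twist of `h` -/
def Tw {K : Type*} [Field K] (p j : ℕ) (h g : K[X]) : Prop := ∀ m, g.coeff m = h.coeff m ^ p ^ j

/-- an additive valuation (junk at zero) for which the numbers less than `p` are units -/
structure Vl {K : Type*} [Field K] (p : ℕ) (o : K → ℤ) : Prop where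
  mul : ∀ x y, x ≠ 0 → y ≠ 0 → o (x * y) = o x + o y
  add : ∀ x y (m : ℤ), x ≠ 0 → y ≠ 0 → x + y ≠ 0 → m ≤ o x → m ≤ o y → m ≤ o (x + y)
  nat : ∀ n : ℕ, 0 < n → n < p → (n : K) ≠ 0 ∧ o (n : K) = 0

/-- integrality over `R` of an element of a field `K` over a field `F` over `R` -/
def Integ (R F : Type*) {K : Type*} [CommRing R] [Field F] [Algebra R F] [Field K] [Algebra F K]
    (x : K) : Prop := ((algebraMap F K).comp (algebraMap R F)).IsIntegralElem x

/-- The valuations of `K` above a principal ideal domain `R` with fraction field `F`, and the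
denominators `δ` of the derivation `D`. -/
structure ChartQ (R F K : Type*) [CommRing R] [Field F] [Algebra R F] [Field K]
    [Algebra F K] (D : Derivation ℤ K K) where
  Pl : Type w
  ord : Pl → K → ℤ
  g : Pl → R
  g_ne : ∀ v, g v ≠ 0
  g_nu : ∀ v, ¬ IsUnit (g v)
  ord_mul : ∀ v x y, x ≠ 0 → y ≠ 0 → ord v (x * y) = ord v x + ord v y
  ord_add : ∀ v x y (m : ℤ), x ≠ 0 → y ≠ 0 → x + y ≠ 0 → m ≤ ord v x → m ≤ ord v y →
    m ≤ ord v (x + y)
  ord_R : ∀ v (r : R), r ≠ 0 → 0 ≤ ord v (algebraMap F K (algebraMap R F r))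
  fin : ∀ x, x ≠ 0 → {v | ord v x ≠ 0}.Finite
  norm : ∀ x, x ≠ 0 → ∀ T : Finset Pl, (∀ v, v ∉ T → ord v x = 0) →
    ∃ ε : R, IsUnit ε ∧ Algebra.norm F x = algebraMap R F ε *
      ∏ v ∈ T, (algebraMap R F (g v)) ^ (ord v x)
  integral : ∀ x, x ≠ 0 → (∀ v, 0 ≤ ord v x) → ∀ n, ∃ r : R,
    algebraMap R F r = (minpoly F x).coeff n
  deriv : ∀ δ : R, δ ≠ 0 →
    (∀ s : K, Integ R F s → Integ R F (algebraMap F K (algebraMap R F δ) * D s)) →
    ∀ v x, x ≠ 0 → D x ≠ 0 →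
    ord v x - 1 - ord v (algebraMap F K (algebraMap R F δ)) ≤ ord v (D x) ∧
      (0 ≤ ord v x → - ord v (algebraMap F K (algebraMap R F δ)) ≤ ord v (D x))

/-- Large finite stable sets give a conjugate whose coefficients, and most of the points, are
`p`-th powers. -/
def PA (p : ℕ) (k L : Type*) [Field k] [Field L] [Algebra k L] (d N : ℕ) : Prop :=
  ∀ (f : L[X]) (P : Finset L), f.natDegree = d → (∀ x ∈ P, f.eval x ∈ P) → ¬ Iso k f →
    N ≤ P.card → ∃ x₀ ∈ P, ∃ x₁ ∈ P, x₁ ≠ x₀ ∧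
      (∀ m, ∃ y, y ^ p = (aff (x₁ - x₀) x₀ f).coeff m) ∧
      ∃ T ⊆ P, (∀ x ∈ T, ∃ y, y ^ p = (x₁ - x₀)⁻¹ * (x - x₀)) ∧
        2 * d * P.card ≤ (2 * d + 1) * T.card

/-- Few twists of `h` have periodic points which are not `p`-th powers. -/
def PB (p : ℕ) (k L : Type*) [Field k] [Field L] [Algebra k L] (d M : ℕ) : Prop :=
  ∀ (h : L[X]) (Z : Finset L), h.natDegree = d → ¬ Iso k h → 0 ∈ Z → 1 ∈ Z →
    (∀ z ∈ Z, h.eval z ∈ Z) → ∀ J : Finset ℕ, (∀ j ∈ J, 1 ≤ j ∧ ∃ (g : L[X]) (x : L) (m : ℕ),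
      Tw p j h g ∧ (∀ y, y ^ p ≠ x) ∧ 1 ≤ m ∧ (fun z => g.eval z)^[m] x = x) → J.card ≤ M

end Pool.Agent.Y706.SB
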