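import Mathlib
import Pool.Agent.Y706.SB.Defs

/-!
# Statements (project SB): strong uniform boundedness for polynomials of degree less than `p`
-/

namespace Pool.Agent.Y706.SB

open Polynomial Pool.Agent.TH951.W.UB

universe u v w

/-- SB-DEN: the square of the discriminant is a denominator of the derivation. -/
def S_DEN : Prop := ∀ (R F : Type u) (K : Type w) [CommRing R] [IsDomain R]
    [IsPrincipalIdealRing R] [Field F] [Algebra R F] [IsFractionRing R F] [Field K] [Algebra F K]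
    [FiniteDimensional F K] [Algebra.IsSeparable F K]
    (D : Derivation ℤ K K), (∀ r : R, ∃ r' : R, algebraMap F K (algebraMap R F r') =
      D (algebraMap F K (algebraMap R F r))) →
    ∀ B : PowerBasis F K, Integ R F B.gen → ∀ s : K, Integ R F s →
      Integ R F (algebraMap F K (Algebra.discr F B.basis) ^ 2 * D s)

/-- SB-CH: existence of the chart. -/
def S_CH : Prop := ∀ (R F : Type u) (K : Type w) [CommRing R] [IsDomain R]
    [IsPrincipalIdealRing R] [Field F] [Algebra R F] [IsFractionRing R F] [Field K] [Algebra F K]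
    [FiniteDimensional F K] [Algebra.IsSeparable F K] (D : Derivation ℤ K K),
    Nonempty (ChartQ.{w} R F K D)

/-- SB-EF: the equation of a generator, with small degrees. -/
def S_EF : Prop := ∀ (k : Type u) (K : Type w) [Field k] [Infinite k] [Field K] [Algebra k K]
    [Algebra (RatFunc k) K] [IsScalarTower k (RatFunc k) K] [FiniteDimensional (RatFunc k) K]
    [Algebra.IsSeparable (RatFunc k) K]
    (D : Derivation ℤ K K)
    (c1 : ChartQ.{w} k[X] (RatFunc k) K D) (c2 : ChartQ.{w} (InfRing k) (RatFunc k) K D)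
    (u : K), IntermediateField.adjoin (RatFunc k) {u} = ⊤ → (∀ c : k, u ≠ algebraMap k K c) →
    ∀ (T1 : Finset c1.Pl), (∀ v, v ∉ T1 → 0 ≤ c1.ord v u) →
    ∀ (T2 : Finset c2.Pl), (∀ v, v ∉ T2 → 0 ≤ c2.ord v u) →
    ∃ P : ℕ → k[X], (∀ j, ((P j).natDegree : ℤ) ≤
        ∑ v ∈ T1, (algebraMap k[X] (RatFunc k) (c1.g v)).intDegree * max 0 (-c1.ord v u) +
        ∑ v ∈ T2, (-(algebraMap (InfRing k) (RatFunc k) (c2.g v)).intDegree) *
          max 0 (-c2.ord v u)) ∧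
      P (Module.finrank (RatFunc k) K) ≠ 0 ∧
      ∑ j ∈ Finset.range (Module.finrank (RatFunc k) K + 1),
        algebraMap (RatFunc k) K (algebraMap k[X] (RatFunc k) (P j)) * u ^ j = 0

/-- SB-LB: place data with small loss. -/
def S_LB : Prop := ∀ (p : ℕ) [Fact p.Prime] (k : Type u) (K : Type w) [Field k] [IsAlgClosed k]
    [CharP k p] [Field K] [CharP K p] [Algebra k K] [Algebra (RatFunc k) K]
    [IsScalarTower k (RatFunc k) K] [FiniteDimensional (RatFunc k) K]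
    [Algebra.IsSeparable (RatFunc k) K] (u : K),
    IntermediateField.adjoin (RatFunc k) {u} = ⊤ → (∀ c : k, u ≠ algebraMap k K c) →
    ∃ Q : PlaceData.{w} k K, (∀ x, Q.D x = 0 → ∃ y, y ^ p = x) ∧
      ∀ S : Finset Q.Pl, (∀ v, v ∉ S → Q.pole v u = 0) →
        Q.lossT ≤ 8 * (Module.finrank (RatFunc k) K : ℤ) ^ 3 * ∑ v ∈ S, Q.wt v * Q.pole v u

/-- SB-ESC: points with finite orbit are not large. -/
def S_ESC : Prop := ∀ (p : ℕ) (K : Type w) [Field K] (o : K → ℤ), Vl p o →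
    ∀ (f : K[X]) (d : ℕ), f.natDegree = d → 2 ≤ d → ∀ (V t : ℝ), 0 ≤ t →
    ((d : ℝ) - 1) * V = -(o f.leadingCoeff : ℝ) →
    (∀ i < d, (f - X).coeff i ≠ 0 →
      (o f.leadingCoeff : ℝ) - o ((f - X).coeff i) ≤ ((d : ℝ) - i) * (t - V)) →
    ∀ (y : K) (m n : ℕ), m < n → (fun z => f.eval z)^[m] y = (fun z => f.eval z)^[n] y →
      y ≠ 0 → V - t ≤ (o y : ℝ)

/-- SB-KK: not all critical points are close to a bounded point. -/
def S_KK : Prop := ∀ (p : ℕ) (K : Type w) [Field K] (o : K → ℤ), Vl p o →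
    ∀ (f : K[X]) (d : ℕ), f.natDegree = d → 2 ≤ d → d < p → ∀ (V t : ℝ), 0 < t → V ≤ t →
    ((d : ℝ) - 1) * V = -(o f.leadingCoeff : ℝ) →
    (∀ i < d, (f - X).coeff i ≠ 0 →
      (o f.leadingCoeff : ℝ) - o ((f - X).coeff i) ≤ ((d : ℝ) - i) * (t - V)) →
    (t = V ∨ ∃ i < d, (f - X).coeff i ≠ 0 ∧
      (o f.leadingCoeff : ℝ) - o ((f - X).coeff i) = ((d : ℝ) - i) * (t - V)) →
    (f.eval 0 ≠ 0 → V - t ≤ (o (f.eval 0) : ℝ)) → (f.eval 1 ≠ 0 → V - t ≤ (o (f.eval 1) : ℝ)) →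
    ∀ y : K, (y ≠ 0 → V - t ≤ (o y : ℝ)) → (f.eval y ≠ 0 → V - t ≤ (o (f.eval y) : ℝ)) →
    ∃ i, 1 ≤ i ∧ i < d ∧ (hasseDeriv i f).eval y ≠ 0 ∧
      (o ((hasseDeriv i f).eval y) : ℝ) ≤ o f.leadingCoeff - ((d : ℝ) - i) * (t - V)

/-- SB-LOC: the local estimate at a place of bad reduction. -/
def S_LOC : Prop := ∀ (p : ℕ) (K : Type w) [Field K] [CharP K p] (o : K → ℤ), Vl p o →
    ∀ (D : Derivation ℤ K K) (loss : ℝ),
    (∀ x, x ≠ 0 → D x ≠ 0 → (o x : ℝ) - 1 - loss ≤ o (D x)) →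
    ∀ (g : K[X]) (d : ℕ), g.natDegree = d → 2 ≤ d → d < p → (∀ m, D (g.coeff m) = 0) →
    ∀ (V t : ℝ), 0 < t → V ≤ t → ((d : ℝ) - 1) * V = -(o g.leadingCoeff : ℝ) →
    (∀ i < d, (g - X).coeff i ≠ 0 →
      (o g.leadingCoeff : ℝ) - o ((g - X).coeff i) ≤ ((d : ℝ) - i) * (t - V)) →
    (t = V ∨ ∃ i < d, (g - X).coeff i ≠ 0 ∧
      (o g.leadingCoeff : ℝ) - o ((g - X).coeff i) = ((d : ℝ) - i) * (t - V)) →
    (∃ m n : ℕ, m < n ∧ (fun z => g.eval z)^[m] 0 = (fun z => g.eval z)^[n] 0) →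
    (∃ m n : ℕ, m < n ∧ (fun z => g.eval z)^[m] 1 = (fun z => g.eval z)^[n] 1) →
    ∀ (x : K) (m : ℕ), 1 ≤ m → (fun z => g.eval z)^[m] x = x → D x ≠ 0 →
      V + t / ((d : ℝ) - 1) ≤ o (D x) + 1 + loss

/-- SB-LEV: the level inequality. -/
def S_LEV : Prop := ∀ (p : ℕ) [Fact p.Prime] (k : Type u) (K : Type w) [Field k] [Field K]
    [Algebra k K] [CharP K p] (Q : PlaceData.{w} k K) (h : K[X]) (d : ℕ) (Z : Finset K),
    h.natDegree = d → 2 ≤ d → d < p → 0 ∈ Z → 1 ∈ Z → (∀ z ∈ Z, h.eval z ∈ Z) →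
    (∃ m, ∀ c : k, algebraMap k K c ≠ h.coeff m) →
    ∃ (S : Finset Q.Pl) (ρ : Q.Pl → ℝ) (H : ℝ), 0 < H ∧ (∀ v, 0 ≤ ρ v) ∧ (∀ v, v ∉ S → ρ v = 0) ∧
      (∀ v m, h.coeff m ≠ 0 → -(Q.ord v (h.coeff m) : ℝ) ≤ ρ v) ∧
      (∀ v, ∀ z ∈ Z, z ≠ 0 → -(Q.ord v z : ℝ) ≤ ρ v) ∧
      ∑ v ∈ S, (Q.wt v : ℝ) * ρ v ≤ 2 * d * H ∧
      ∀ (j : ℕ) (g : K[X]) (x : K) (m : ℕ), 1 ≤ j → Tw p j h g → 1 ≤ m →
        (fun z => g.eval z)^[m] x = x →
        (∀ v, x ≠ 0 → -(Q.ord v x : ℝ) ≤ (p : ℝ) ^ j * ρ v) ∧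
        (Q.D x ≠ 0 → (p : ℝ) ^ j * H ≤ ((d : ℝ) - 1) * (Q.lossT + (d : ℝ) ^ 2 * H))

/-- SB-B: few levels. -/
def S_B : Prop := ∃ M : ℕ → ℕ → ℕ, ∀ (p : ℕ) [Fact p.Prime] (k : Type u) (L : Type w) [Field k]
    [IsAlgClosed k] [CharP k p] [Field L] [CharP L p] [Algebra k L] [Algebra (RatFunc k) L]
    [IsScalarTower k (RatFunc k) L] [FiniteDimensional (RatFunc k) L]
    [Algebra.IsSeparable (RatFunc k) L] (n d : ℕ), Module.finrank (RatFunc k) L ≤ n → 2 ≤ d →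
    d < p → PB p k L d (M n d)

/-- SB-A: the main inequality. -/
def S_A : Prop := ∃ N : ℕ → ℕ → ℕ, ∀ (p : ℕ) [Fact p.Prime] (k : Type u) (L : Type w) [Field k]
    [IsAlgClosed k] [CharP k p] [Field L] [CharP L p] [Algebra k L] [Algebra (RatFunc k) L]
    [IsScalarTower k (RatFunc k) L] [FiniteDimensional (RatFunc k) L]
    [Algebra.IsSeparable (RatFunc k) L] (n d : ℕ), Module.finrank (RatFunc k) L ≤ n → 2 ≤ d →
    d < p → PA p k L d (N n d)

/-- SB-C1: preimages of `p`-th powers are `p`-th powers. -/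
def S_C1 : Prop := ∀ (p : ℕ) [Fact p.Prime] (L : Type w) [Field L] [CharP L p] (f : L[X]) (x : L),
    1 ≤ f.natDegree → f.natDegree < p → (∀ m, ∃ y, y ^ p = f.coeff m) →
    (∃ y, y ^ p = f.eval x) → ∃ y, y ^ p = x

/-- SB-AR: affine rigidity. -/
def S_AR : Prop := ∀ (p : ℕ) [Fact p.Prime] (L : Type w) [Field L] [CharP L p] (f : L[X])
    (a b : L), a ≠ 0 → 2 ≤ f.natDegree → f.natDegree < p → (∀ m, ∃ y, y ^ p = f.coeff m) →
    (∀ m, ∃ y, y ^ p = (aff a b f).coeff m) → (∃ y, y ^ p = a) ∧ ∃ y, y ^ p = b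

/-- SB-ASM: the assembly. -/
def S_ASM : Prop := ∀ (p : ℕ) [Fact p.Prime] (k : Type u) (L : Type w) [Field k] [Field L]
    [Algebra k L] [CharP L p] (d N M : ℕ), 2 ≤ d → d < p → 2 ≤ N → PA p k L d N → PB p k L d M →
    (∀ x : L, (∀ r : ℕ, ∃ y, y ^ p ^ r = x) → ∃ c : k, algebraMap k L c = x) →
    ∀ (f : L[X]) (P : Finset L), f.natDegree = d → (∀ x ∈ P, f.eval x ∈ P) → ¬ Iso k f →
      P.card ≤ (M + 2) * N

/-- SB-SEP: a separating variable of small degree. -/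
def S_SEP : Prop := ∀ (p : ℕ) [Fact p.Prime] (E L : Type u) [Field E] [IsAlgClosed E] [Field L]
    [Algebra E L] [CharP L p] (t : L), Transcendental E t →
    FiniteDimensional (IntermediateField.adjoin E {t}) L →
    ∃ s : L, Transcendental E s ∧ Algebra.IsSeparable (IntermediateField.adjoin E {s}) L ∧
      FiniteDimensional (IntermediateField.adjoin E {s}) L ∧
      Module.finrank (IntermediateField.adjoin E {s}) L ≤
        Module.finrank (IntermediateField.adjoin E {t}) L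

/-- SB-CMP: the compositum with an algebraic extension of the constants. -/
def S_CMP : Prop := ∀ (k : Type v) (K E L : Type u) [Field k] [Field K] [Algebra k K] [Field E]
    [Algebra k E] [Algebra.IsAlgebraic k E] [Field L] [Algebra E L] (φ : K →+* L),
    (∀ c : k, φ (algebraMap k K c) = algebraMap E L (algebraMap k E c)) →
    IntermediateField.adjoin E (Set.range φ) = ⊤ → ∀ t : K, Transcendental k t →
    FiniteDimensional (IntermediateField.adjoin k {t}) K →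
    Transcendental E (φ t) ∧ FiniteDimensional (IntermediateField.adjoin E {φ t}) L ∧
      Module.finrank (IntermediateField.adjoin E {φ t}) L ≤
        Module.finrank (IntermediateField.adjoin k {t}) K

end Pool.Agent.Y706.SB
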