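import Mathlib
import Pool.Agent.Y706.SB.Defs
import Pool.Agent.Y706.SB.UG.B8

/-!
# Conjugation by affine maps
-/

namespace Pool.Agent.Y706.SB

open Polynomial Pool.Agent.TH951.W.UB Pool.Agent.Y706.SB.UG Finset

section

variable {K : Type*} [Field K]

lemma aff_aff (y b y' b' : K) (hy : y ≠ 0) (f : K[X]) :
    aff y' b' (aff y b f) = aff (y * y') (y * b' + b) f := by
  unfold aff
  rw [mul_comp, sub_comp, C_comp, C_comp, comp_assoc]
  have h1 : (C y * X + C b).comp (C y' * X + C b') = C (y * y') * X + C (y * b' + b) := by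
    simp only [add_comp, mul_comp, C_comp, X_comp, C_mul, C_add]
    ring
  rw [h1]
  simp only [mul_inv, C_mul, C_add]
  have h2 : C y⁻¹ * C y = (1 : K[X]) := by
    rw [← C_mul, inv_mul_cancel₀ hy, C_1]
  linear_combination (C y'⁻¹ * C b') * h2

lemma aff_map {L : Type*} [Field L] (φ : K →+* L) (y b : K) (f : K[X]) :
    (aff y b f).map φ = aff (φ y) (φ b) (f.map φ) := by
  unfold aff
  rw [Polynomial.map_mul, Polynomial.map_sub, map_comp, Polynomial.map_add, Polynomial.map_mul,
    map_C, map_C, map_C, map_X, map_inv₀]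

lemma aff_eval (y b : K) (hy : y ≠ 0) (f : K[X]) (x : K) :
    (aff y b f).eval (y⁻¹ * (x - b)) = y⁻¹ * (f.eval x - b) := by
  unfold aff
  have h1 : y * (y⁻¹ * (x - b)) + b = x := by
    rw [mul_inv_cancel_left₀ hy]
    ring
  simp only [eval_mul, eval_C, eval_sub, eval_comp, eval_add, eval_X, h1]

lemma aff_natDegree (y b : K) (hy : y ≠ 0) (f : K[X]) : (aff y b f).natDegree = f.natDegree := by
  unfold aff
  have h1 : (C y * X + C b : K[X]).natDegree = 1 := natDegree_linear hy
  rw [natDegree_C_mul (inv_ne_zero hy), natDegree_sub_C, natDegree_comp, h1, mul_one]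

variable {k : Type*} [Field k] [Algebra k K]

/-- A polynomial of degree `≤ d` taking constant values at more than `d` constants has constant
coefficients. -/
lemma const_poly {d : ℕ} {f : K[X]} (hf : f.natDegree ≤ d) {P : Finset K}
    (h1 : ∀ z ∈ P, ∃ c : k, algebraMap k K c = z)
    (h2 : ∀ z ∈ P, ∃ c : k, algebraMap k K c = f.eval z) (hP : d < P.card) :
    ∃ g : k[X], g.map (algebraMap k K) = f := by
  classical
  obtain ⟨T, hTP, hT⟩ := Finset.exists_subset_card_eq (show d + 1 ≤ P.card by omega)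
  have h1' : ∀ z : T, ∃ c : k, algebraMap k K c = z := fun z => h1 z (hTP z.2)
  have h2' : ∀ z : T, ∃ c : k, algebraMap k K c = f.eval (z : K) := fun z => h2 z (hTP z.2)
  choose a ha using h1'
  choose b hb using h2'
  have hai : Function.Injective a := by
    intro x y hxy
    apply Subtype.ext
    rw [← ha x, ← ha y, hxy]
  set g : k[X] := Lagrange.interpolate univ a b with hg
  have hgd : g.degree < ((d + 1 : ℕ) : WithBot ℕ) := by
    have h3 := Lagrange.degree_interpolate_lt (s := univ) (v := a) b hai.injOn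
    rwa [Finset.card_univ, Fintype.card_coe, hT] at h3
  have hge : ∀ z : T, g.eval (a z) = b z := fun z =>
    Lagrange.eval_interpolate_at_node _ hai.injOn (Finset.mem_univ z)
  refine ⟨g, ?_⟩
  have hmd : (g.map (algebraMap k K)).degree < (T.card : WithBot ℕ) := by
    rw [degree_map, hT]
    exact hgd
  have hfd : f.degree < (T.card : WithBot ℕ) := by
    rw [hT]
    refine lt_of_le_of_lt degree_le_natDegree ?_
    exact_mod_cast Nat.lt_succ_of_le hf
  apply eq_of_degrees_lt_of_eval_finset_eq T hmd hfd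
  intro z hz
  have h4 := hge ⟨z, hz⟩
  have h5 := ha ⟨z, hz⟩
  have h6 := hb ⟨z, hz⟩
  simp only at h5 h6
  rw [← h6, ← h4, eval_map_algebraMap]
  conv_lhs => rw [← h5]
  rw [aeval_algebraMap_apply, coe_aeval_eq_eval]

/-- points with image in a large subset -/
lemma card_two [DecidableEq K] (f : K[X]) (hd : 1 ≤ f.natDegree) (P T : Finset K)
    (hst : ∀ x ∈ P, f.eval x ∈ P) (hTP : T ⊆ P) :
    P.card ≤ (T.filter fun x => f.eval x ∈ T).card + (f.natDegree + 1) * (P \ T).card := by
  set d := f.natDegree with hdd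
  set T₁ := T.filter fun x => f.eval x ∈ T with hT₁
  have h1 : (P \ T₁).card ≤ (P \ T).card + d * (P \ T).card := by
    have h2 : P \ T₁ ⊆ (P \ T) ∪ P.filter fun x => f.eval x ∈ P \ T := by
      intro x hx
      rw [Finset.mem_sdiff] at hx
      rw [Finset.mem_union]
      by_cases hxT : x ∈ T
      · right
        rw [Finset.mem_filter, Finset.mem_sdiff]
        refine ⟨hx.1, hst x hx.1, fun h => hx.2 ?_⟩
        rw [hT₁, Finset.mem_filter]
        exact ⟨hxT, h⟩
      · left
        rw [Finset.mem_sdiff]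
        exact ⟨hx.1, hxT⟩
    refine (Finset.card_le_card h2).trans ((Finset.card_union_le _ _).trans ?_)
    apply Nat.add_le_add_left
    apply Finset.card_le_mul_card_image_of_maps_to (f := fun x => f.eval x)
    · intro x hx
      exact (Finset.mem_filter.mp hx).2
    · intro y _
      have hfy : f - C y ≠ 0 := by
        intro h0
        have h3 := natDegree_sub_C (p := f) (a := y)
        rw [h0, natDegree_zero] at h3
        omega
      have h3 : ((P.filter fun x => f.eval x ∈ P \ T).filter fun x => f.eval x = y) ⊆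
          (f - C y).roots.toFinset := by
        intro x hx
        rw [Finset.mem_filter] at hx
        rw [Multiset.mem_toFinset, mem_roots hfy, IsRoot.def, eval_sub, eval_C, hx.2, sub_self]
      refine (Finset.card_le_card h3).trans ((Multiset.toFinset_card_le _).trans ?_)
      refine (card_roots' _).trans ?_
      rw [natDegree_sub_C]
  have h4 : (P \ T₁).card + T₁.card = P.card := by
    have hsub : T₁ ⊆ P := (Finset.filter_subset _ _).trans hTP
    rw [Finset.card_sdiff_of_subset hsub]
    have := Finset.card_le_card hsub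
    omega
  have h5 : (d + 1) * (P \ T).card = (P \ T).card + d * (P \ T).card := by ring
  omega

/-- An affine relation on a large subset makes a conjugate constant for the derivation. -/
lemma ker_of_affine [DecidableEq K] (D : Derivation k K K) (f : K[X]) (T : Finset K) (α β : K)
    (hT : ∀ x ∈ T, D x = α * x + β) (x₀ x₁ : K) (h₀ : x₀ ∈ T) (h₁ : x₁ ∈ T) (hne : x₁ ≠ x₀)
    (hbig : f.natDegree < (T.filter fun x => f.eval x ∈ T).card) :
    (∀ x ∈ T, D ((x₁ - x₀)⁻¹ * (x - x₀)) = 0) ∧
      ∀ m, D ((aff (x₁ - x₀) x₀ f).coeff m) = 0 := by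
  have hy : x₁ - x₀ ≠ 0 := sub_ne_zero.mpr hne
  have hker : ∀ x ∈ T, D ((x₁ - x₀)⁻¹ * (x - x₀)) = 0 := by
    intro x hx
    have h1 : D (x - x₀) = α * (x - x₀) := by
      rw [map_sub, hT x hx, hT x₀ h₀]
      ring
    have h2 : D (x₁ - x₀) = α * (x₁ - x₀) := by
      rw [map_sub, hT x₁ h₁, hT x₀ h₀]
      ring
    rw [Derivation.leibniz, Derivation.leibniz_inv, h1, h2]
    simp only [smul_eq_mul]
    field_simp
    ring
  refine ⟨hker, fun m => ?_⟩
  set G := aff (x₁ - x₀) x₀ f with hG
  have hz : cD D G = 0 := by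
    apply eq_zero_of_natDegree_lt_card_of_eval_eq_zero' (cD D G)
      ((T.filter fun x => f.eval x ∈ T).image fun x => (x₁ - x₀)⁻¹ * (x - x₀))
    · intro z hz
      obtain ⟨x, hx, rfl⟩ := Finset.mem_image.mp hz
      obtain ⟨hxT, hfx⟩ := Finset.mem_filter.mp hx
      have h1 := D_eval D G ((x₁ - x₀)⁻¹ * (x - x₀))
      rw [hG, aff_eval _ _ hy, hker _ hfx, hker _ hxT, mul_zero, add_zero] at h1
      exact h1.symm
    · rw [Finset.card_image_of_injective]
      · refine lt_of_le_of_lt (cD_natDegree D G) ?_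
        rw [hG, aff_natDegree _ _ hy]
        exact hbig
      · intro a b hab
        have h1 := mul_left_cancel₀ (inv_ne_zero hy) hab
        exact sub_left_injective h1
  rw [← cD_coeff, hz, coeff_zero]

/-- Without bad places the map is conjugate to one with constant coefficients. -/
theorem iso_of_no_bad (Q : PlaceData k K) (f : K[X]) (hf0 : f ≠ 0) (P : Finset K)
    (hst : ∀ x ∈ P, f.eval x ∈ P) (S : Finset Q.Pl)
    (hSA : ∀ v, v ∉ S → Q.ord v f.leadingCoeff = 0)
    (hSP : ∀ v, v ∉ S → ∀ x ∈ P, ∀ y ∈ P, x ≠ y → Q.ord v (x - y) = 0)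
    (hno : ∀ v, ¬ Bad Q f P v) (hN : f.natDegree < P.card) (hN2 : 2 ≤ P.card) :
    ∃ y b : K, y ≠ 0 ∧ ∃ g : k[X], g.map (algebraMap k K) = aff y b f := by
  classical
  obtain ⟨x₀, hx₀, x₁, hx₁, hne⟩ := Finset.one_lt_card.mp (by omega : 1 < P.card)
  have hge : ∀ v, ∀ x ∈ P, ∀ y ∈ P, x ≠ y → VV Q f v ≤ Q.ord v (x - y) := by
    intro v x hx y hy hxy
    by_contra h
    push Not at h
    exact hno v ⟨x, hx, y, hy, hxy, h⟩
  have heq : ∀ v, ∀ x ∈ P, ∀ y ∈ P, x ≠ y → (Q.ord v (x - y) : ℝ) = VV Q f v := by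
    intro v x hx y hy hxy
    by_cases hv : v ∈ S
    · have h1 : ∑ v ∈ S, (Q.wt v : ℝ) * ((Q.ord v (x - y) : ℝ) - VV Q f v) = 0 := by
        simp only [mul_sub, Finset.sum_sub_distrib]
        rw [sum_VV Q f hf0 S hSA, prod_zero' Q S (x - y) (sub_ne_zero.mpr hxy)
          (fun v hv => hSP v hv x hx y hy hxy), sub_zero]
      have h2 := (Finset.sum_eq_zero_iff_of_nonneg (fun v _ => mul_nonneg
        (by exact_mod_cast Q.wt_nonneg v : (0 : ℝ) ≤ Q.wt v)
        (by linarith [hge v x hx y hy hxy]))).mp h1 v hv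
      rcases mul_eq_zero.mp h2 with h3 | h3
      · have := Q.wt_one v
        have h4 : Q.wt v = 0 := by exact_mod_cast h3
        omega
      · linarith
    · rw [hSP v hv x hx y hy hxy]
      unfold VV
      rw [hSA v hv]
      simp
  set y := x₁ - x₀ with hy
  have hy0 : y ≠ 0 := sub_ne_zero.mpr (Ne.symm hne)
  have hconst : ∀ x ∈ P, ∃ c : k, algebraMap k K c = y⁻¹ * (x - x₀) := by
    intro x hx
    by_cases hxx : x = x₀
    · refine ⟨0, ?_⟩
      rw [hxx]
      simp
    · apply Q.const
      · exact mul_ne_zero (inv_ne_zero hy0) (sub_ne_zero.mpr hxx)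
      · intro v
        rw [Q.ord_mul v _ _ (inv_ne_zero hy0) (sub_ne_zero.mpr hxx), PlaceData.ord_inv hy0]
        have h1 := heq v x hx x₀ hx₀ hxx
        have h2 := heq v x₁ hx₁ x₀ hx₀ (Ne.symm hne)
        rw [← h1] at h2
        have h3 : Q.ord v (x₁ - x₀) = Q.ord v (x - x₀) := by exact_mod_cast h2
        rw [← hy] at h3
        omega
  refine ⟨y, x₀, hy0, ?_⟩
  have hinj : Function.Injective fun x : K => y⁻¹ * (x - x₀) := by
    intro a b hab
    have h1 := mul_left_cancel₀ (inv_ne_zero hy0) hab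
    exact sub_left_injective h1
  apply const_poly (aff_natDegree y x₀ hy0 f).le (P := P.image fun x => y⁻¹ * (x - x₀))
  · intro z hz
    obtain ⟨x, hx, rfl⟩ := Finset.mem_image.mp hz
    exact hconst x hx
  · intro z hz
    obtain ⟨x, hx, rfl⟩ := Finset.mem_image.mp hz
    obtain ⟨c, hc⟩ := hconst _ (hst x hx)
    exact ⟨c, by rw [hc, aff_eval y x₀ hy0]⟩
  · rw [Finset.card_image_of_injective _ hinj]
    exact hN

end

end Pool.Agent.Y706.SB
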