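import Mathlib
import Pool.Agent.Y706.SB.Stm
import Pool.Agent.Y706.SB.Alg
import Pool.Agent.Y153.SB.Esc

/-!
# From algebraically closed constants to all constants
-/

namespace Pool.Agent.Y706.SB

open Polynomial Pool.Agent.TH951.W.UB Finset PlaceData

universe u v w

/-- the constants -/
noncomputable abbrev EE (k : Type v) (K : Type u) [Field k] [Field K] [Algebra k K] :
    IntermediateField k (AlgebraicClosure K) := algebraicClosure k (AlgebraicClosure K)

/-- the compositum -/
noncomputable abbrev LL (k : Type v) (K : Type u) [Field k] [Field K] [Algebra k K] :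
    IntermediateField (EE k K) (AlgebraicClosure K) :=
  IntermediateField.adjoin (EE k K) (Set.range (algebraMap K (AlgebraicClosure K)))

section

variable (k : Type v) (K : Type u) [Field k] [Field K] [Algebra k K]

/-- the inclusion -/
noncomputable def phi : K →+* LL k K :=
  (algebraMap K (AlgebraicClosure K)).codRestrict (LL k K).toSubfield fun x =>
    IntermediateField.subset_adjoin _ _ ⟨x, rfl⟩

lemma phi_val (x : K) : ((phi k K x : LL k K) : AlgebraicClosure K) =
    algebraMap K (AlgebraicClosure K) x := rfl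

lemma phi_alg (c : k) : phi k K (algebraMap k K c) =
    algebraMap (EE k K) (LL k K) (algebraMap k (EE k K) c) := by
  apply Subtype.ext
  rw [phi_val]
  exact (IsScalarTower.algebraMap_apply k K (AlgebraicClosure K) c).symm

lemma adjoin_phi : IntermediateField.adjoin (EE k K) (Set.range (phi k K)) = ⊤ := by
  apply IntermediateField.lift_injective
  rw [IntermediateField.lift_adjoin, IntermediateField.lift_top]
  congr 1
  ext y
  constructor
  · rintro ⟨_, ⟨x, rfl⟩, rfl⟩
    exact ⟨x, rfl⟩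
  · rintro ⟨x, rfl⟩
    exact ⟨phi k K x, ⟨x, rfl⟩, rfl⟩

/-- elements of `K` which become constant are algebraic -/
lemma alg_of_phi (x : K) (c : EE k K) (h : algebraMap (EE k K) (LL k K) c = phi k K x) :
    IsAlgebraic k x := by
  have h1 : (c : AlgebraicClosure K) = algebraMap K (AlgebraicClosure K) x :=
    congrArg (fun z : LL k K => (z : AlgebraicClosure K)) h
  have h2 : IsAlgebraic k (c : AlgebraicClosure K) := mem_algebraicClosure_iff.mp c.2
  rw [h1] at h2
  exact (isAlgebraic_algebraMap_iff (algebraMap K (AlgebraicClosure K)).injective).mp h2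

end

/-- preperiodic points lie in finite stable sets -/
theorem prePer_of_stable {A : Type u} (F : A → A) (B : ℕ)
    (h : ∀ P : Finset A, (∀ z ∈ P, F z ∈ P) → P.card ≤ B) :
    {z : A | (Set.range fun m : ℕ => F^[m] z).Finite}.encard ≤ (B : ℕ∞) := by
  classical
  by_contra hcon
  push Not at hcon
  obtain ⟨T, hTs, hT⟩ := Set.exists_subset_encard_eq (Order.add_one_le_of_lt hcon)
  have hTf : T.Finite := by
    apply Set.finite_of_encard_eq_coe (k := B + 1)
    rw [hT]
    norm_cast
  have h1 : (⋃ z ∈ T, Set.range fun m : ℕ => F^[m] z).Finite :=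
    hTf.biUnion fun z hz => hTs hz
  have h2 := h h1.toFinset (by
    intro z hz
    rw [Set.Finite.mem_toFinset, Set.mem_iUnion₂] at hz ⊢
    obtain ⟨w, hw, m, hm⟩ := hz
    refine ⟨w, hw, m + 1, ?_⟩
    simp only at hm ⊢
    rw [Function.iterate_succ_apply', hm])
  have h3 : hTf.toFinset ⊆ h1.toFinset := by
    intro z hz
    rw [Set.Finite.mem_toFinset] at hz ⊢
    rw [Set.mem_iUnion₂]
    exact ⟨z, hz, 0, rfl⟩
  have h4 := Finset.card_le_card h3
  have h5 : (hTf.toFinset.card : ℕ∞) = B + 1 := by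
    rw [← hT, hTf.encard_eq_coe_toFinset_card]
  have h6 : hTf.toFinset.card = B + 1 := by exact_mod_cast h5
  omega

/-- the algebra structure over rational functions given by a transcendental element -/
lemma exists_ratAlgSep (E L : Type u) [Field E] [Field L] [Algebra E L] (s : L)
    (hs : Transcendental E s) (hsep : Algebra.IsSeparable (IntermediateField.adjoin E {s}) L)
    (hfin : FiniteDimensional (IntermediateField.adjoin E {s}) L) :
    ∃ _ : Algebra (RatFunc E) L, IsScalarTower E (RatFunc E) L ∧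
      FiniteDimensional (RatFunc E) L ∧ Algebra.IsSeparable (RatFunc E) L ∧
      Module.finrank (RatFunc E) L = Module.finrank (IntermediateField.adjoin E {s}) L := by
  let σ : RatFunc E ≃ₐ[E] IntermediateField.adjoin E {s} := RatFunc.algEquivOfTranscendental s hs
  let φ : RatFunc E →+* L := (algebraMap (IntermediateField.adjoin E {s}) L).comp
    (σ : RatFunc E →+* IntermediateField.adjoin E {s})
  letI : Algebra (RatFunc E) L := φ.toAlgebra
  have hφ' : ∀ y, algebraMap (RatFunc E) L y = φ y := fun _ => rfl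
  have htow : IsScalarTower E (RatFunc E) L := by
    apply IsScalarTower.of_algebraMap_eq
    intro c
    rw [hφ']
    show _ = algebraMap (IntermediateField.adjoin E {s}) L (σ (algebraMap E (RatFunc E) c))
    rw [AlgEquiv.commutes]
    rfl
  have hcomp : (algebraMap (RatFunc E) L).comp
      (σ.symm.toRingEquiv : IntermediateField.adjoin E {s} →+* RatFunc E) =
      ((RingEquiv.refl L : L ≃+* L) : L →+* L).comp
        (algebraMap (IntermediateField.adjoin E {s}) L) := by
    apply RingHom.ext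
    intro y
    obtain ⟨z, rfl⟩ := σ.surjective y
    have h1 : σ.symm (σ z) = z := AlgEquiv.symm_apply_apply σ z
    calc algebraMap (RatFunc E) L (σ.symm (σ z)) = φ z := by rw [h1]; rfl
      _ = _ := rfl
  have hsep' : Algebra.IsSeparable (RatFunc E) L :=
    Algebra.IsSeparable.of_equiv_equiv σ.symm.toRingEquiv (RingEquiv.refl L) hcomp
  have hrank : Module.finrank (IntermediateField.adjoin E {s}) L = Module.finrank (RatFunc E) L :=
    Algebra.finrank_eq_of_equiv_equiv σ.symm.toRingEquiv (RingEquiv.refl L) hcomp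
  have hfin' : FiniteDimensional (RatFunc E) L := by
    apply FiniteDimensional.of_finrank_pos
    rw [← hrank]
    exact Module.finrank_pos
  exact ⟨inferInstance, htow, hfin', hsep', hrank.symm⟩

section

variable {k : Type u} {K : Type w} [Field k] [Field K] [Algebra k K]

/-- elements with all roots of `p`-power order are constant -/
lemma inter_const (p : ℕ) (hp : p.Prime) (Q : PlaceData.{w} k K) (x : K)
    (h : ∀ r : ℕ, ∃ y, y ^ p ^ r = x) : ∃ c : k, algebraMap k K c = x := by
  by_cases hx : x = 0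
  · exact ⟨0, by rw [map_zero, hx]⟩
  apply Q.const x hx
  intro v
  apply le_of_eq
  symm
  by_contra hne
  obtain ⟨y, hy⟩ := h (Q.ord v x).natAbs
  have hy0 : y ≠ 0 := by
    rintro rfl
    rw [zero_pow (pow_pos hp.pos _).ne'] at hy
    exact hx hy.symm
  have h1 := PlaceData.ord_pow (Q := Q) (v := v) hy0 (p ^ (Q.ord v x).natAbs)
  rw [hy] at h1
  have h2 : p ^ (Q.ord v x).natAbs ∣ (Q.ord v x).natAbs := by
    have h3 : ((p ^ (Q.ord v x).natAbs : ℕ) : ℤ) ∣ Q.ord v x := ⟨_, h1⟩
    exact Int.natCast_dvd.mp h3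
  have h3 := Nat.le_of_dvd (Int.natAbs_pos.mpr hne) h2
  have h4 : (Q.ord v x).natAbs < p ^ (Q.ord v x).natAbs := Nat.lt_pow_self hp.one_lt
  omega

lemma vl_of_pd (p : ℕ) [CharP K p] (Q : PlaceData.{w} k K) (v : Q.Pl) : Vl p (Q.ord v) := by
  haveI : CharP k p := (RingHom.charP_iff (algebraMap k K) (algebraMap k K).injective p).mpr
    inferInstance
  refine ⟨fun x y => Q.ord_mul v x y, fun x y m => Q.ord_add v x y m, fun n hn hnp => ?_⟩
  have h2 : (n : k) ≠ 0 := by
    rw [Ne, CharP.cast_eq_zero_iff k p]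
    intro h
    have := Nat.le_of_dvd hn h
    omega
  have h1 : (n : K) = algebraMap k K (n : k) := by simp
  rw [h1]
  exact ⟨(_root_.map_ne_zero _).mpr h2, Q.ord_alg v _ h2⟩

/-- points with finite orbit of a polynomial with constant coefficients are constant -/
lemma const_of_finite (p : ℕ) [CharP K p] (Q : PlaceData.{w} k K) (g : K[X])
    (hd : 2 ≤ g.natDegree) (hg : ∀ m, ∃ c : k, algebraMap k K c = g.coeff m) (P : Finset K)
    (hst : ∀ z ∈ P, g.eval z ∈ P) (z : K) (hz : z ∈ P) : ∃ c : k, algebraMap k K c = z := by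
  classical
  by_cases hz0 : z = 0
  · exact ⟨0, by rw [map_zero, hz0]⟩
  apply Q.const z hz0
  intro v
  have hmem : ∀ n : ℕ, (fun z => g.eval z)^[n] z ∈ P := by
    intro n
    induction n with
    | zero => exact hz
    | succ n ih =>
      rw [Function.iterate_succ_apply']
      exact hst _ ih
  obtain ⟨m, n, hmn, heq⟩ : ∃ m n : ℕ, m < n ∧
      (fun z => g.eval z)^[m] z = (fun z => g.eval z)^[n] z := by
    obtain ⟨m, -, n, -, hne, h⟩ := Finset.exists_ne_map_eq_of_card_lt_of_maps_to
      (s := Finset.range (P.card + 1)) (t := P) (f := fun n => (fun z => g.eval z)^[n] z)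
      (by rw [Finset.card_range]; omega) (fun n _ => hmem n)
    rcases lt_or_gt_of_ne hne with h1 | h1
    · exact ⟨m, n, h1, h⟩
    · exact ⟨n, m, h1, h.symm⟩
  have hord : ∀ x : K, x ≠ 0 → (∃ c : k, algebraMap k K c = x) → Q.ord v x = 0 := by
    rintro x hx ⟨c, rfl⟩
    apply Q.ord_alg
    rintro rfl
    exact hx (map_zero _)
  have hlc : Q.ord v g.leadingCoeff = 0 := by
    refine hord _ ?_ (hg _)
    refine leadingCoeff_ne_zero.mpr ?_
    rintro rfl
    rw [natDegree_zero] at hd
    omega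
  have h1 := Pool.Agent.Y153.SB.t_ESC p K (Q.ord v) (vl_of_pd p Q v) g g.natDegree rfl hd 0 0
    le_rfl (by rw [hlc]; simp) (by
      intro i _ hi
      have h2 : ∃ c : k, algebraMap k K c = (g - X).coeff i := by
        obtain ⟨c, hc⟩ := hg i
        refine ⟨c - (X : k[X]).coeff i, ?_⟩
        rw [map_sub, hc, coeff_sub]
        congr 1
        rw [coeff_X, coeff_X]
        split_ifs <;> simp
      rw [hlc, hord _ hi h2]
      simp) z m n hmn heq hz0
  have h2 : (0 : ℝ) ≤ (Q.ord v z : ℝ) := by linarith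
  exact_mod_cast h2

/-- Isotriviality with two points of a finite stable set. -/
lemma iso_two (p : ℕ) [CharP K p] (Q : PlaceData.{w} k K) (f : K[X]) (hd : 2 ≤ f.natDegree)
    (P : Finset K) (hst : ∀ z ∈ P, f.eval z ∈ P) (hiso : Iso k f) (x₀ x₁ : K) (h₀ : x₀ ∈ P)
    (h₁ : x₁ ∈ P) (hne : x₁ ≠ x₀) :
    ∀ m, ∃ c : k, algebraMap k K c = (aff (x₁ - x₀) x₀ f).coeff m := by
  classical
  obtain ⟨y, b, hy, hg⟩ := hiso
  set g := aff y b f with hgd
  have hgn : g.natDegree = f.natDegree := aff_natDegree y b hy f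
  set P' := P.image fun x => y⁻¹ * (x - b) with hP'
  have hst' : ∀ z ∈ P', g.eval z ∈ P' := by
    intro z hz
    obtain ⟨x, hx, rfl⟩ := Finset.mem_image.mp hz
    rw [hgd, aff_eval y b hy]
    exact Finset.mem_image.mpr ⟨f.eval x, hst x hx, rfl⟩
  obtain ⟨c₀, hc₀⟩ := const_of_finite p Q g (by rw [hgn]; exact hd) hg P' hst' (y⁻¹ * (x₀ - b))
    (Finset.mem_image.mpr ⟨x₀, h₀, rfl⟩)
  obtain ⟨c₁, hc₁⟩ := const_of_finite p Q g (by rw [hgn]; exact hd) hg P' hst' (y⁻¹ * (x₁ - b))
    (Finset.mem_image.mpr ⟨x₁, h₁, rfl⟩)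
  obtain ⟨g', hg'⟩ : ∃ g' : k[X], g'.map (algebraMap k K) = g := by
    choose a ha using hg
    refine ⟨∑ i ∈ Finset.range (g.natDegree + 1), C (a i) * X ^ i, ?_⟩
    rw [Polynomial.map_sum]
    conv_rhs => rw [as_sum_range_C_mul_X_pow g]
    apply Finset.sum_congr rfl
    intro i _
    rw [Polynomial.map_mul, Polynomial.map_pow, map_X, map_C, ha]
  have e0 : x₀ = y * algebraMap k K c₀ + b := by
    rw [hc₀, mul_inv_cancel_left₀ hy]
    ring
  have e1 : x₁ - x₀ = y * (algebraMap k K c₁ - algebraMap k K c₀) := by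
    rw [hc₀, hc₁, ← mul_sub, mul_inv_cancel_left₀ hy]
    ring
  have h3 : aff (x₁ - x₀) x₀ f =
      (aff (c₁ - c₀) c₀ g').map (algebraMap k K) := by
    rw [aff_map, hg', hgd, aff_aff y b _ _ hy, map_sub, ← e1, ← e0]
  intro m
  exact ⟨(aff (c₁ - c₀) c₀ g').coeff m, by rw [h3, coeff_map]⟩

end

/-- The final theorem. -/
theorem final_of (hA : S_A.{u, u}) (hB : S_B.{u, u}) (hASM : S_ASM.{u, u}) (hSEP : S_SEP.{u})
    (hCMP : S_CMP.{u, v}) :
    ∃ N : ℕ → ℕ → ℕ, ∀ (p : ℕ) (k : Type v) (L : Type u) [Field k] [CharP k p] [Field L]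
      [Algebra k L] (t : L), p.Prime → Transcendental k t →
      FiniteDimensional (IntermediateField.adjoin k {t}) L → ∀ (n d : ℕ) (f : L[X]),
      Module.finrank (IntermediateField.adjoin k {t}) L ≤ n → 2 ≤ d → d < p →
      f.natDegree = d → (¬ ∃ y b : L, y ≠ 0 ∧ ∀ m, IsAlgebraic k ((aff y b f).coeff m)) →
      {z : L | (Set.range fun m : ℕ => (fun x => f.eval x)^[m] z).Finite}.encard ≤
        (N n d : ℕ∞) := by
  classical
  obtain ⟨NA', hA⟩ := hA
  obtain ⟨MB, hB⟩ := hB
  refine ⟨fun n d => (MB n d + 2) * (NA' n d + 2), ?_⟩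
  intro p k L _ _ _ _ t hp ht hfin n d f hn hd hdp hfd hiso
  haveI : Fact p.Prime := ⟨hp⟩
  apply prePer_of_stable
  intro P hst
  by_cases hP2 : P.card ≤ 1
  · refine hP2.trans ?_
    calc 1 = 1 * 1 := rfl
      _ ≤ (MB n d + 2) * (NA' n d + 2) := Nat.mul_le_mul (by omega) (by omega)
  push Not at hP2
  -- the constants
  haveI : IsAlgClosed (EE k L) := IsAlgClosure.isAlgClosed k
  haveI : CharP (EE k L) p :=
    (RingHom.charP_iff (algebraMap k (EE k L)) (algebraMap k (EE k L)).injective p).mp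
      inferInstance
  haveI : CharP (LL k L) p :=
    (RingHom.charP_iff (algebraMap (EE k L) (LL k L)) (algebraMap (EE k L) (LL k L)).injective
      p).mp inferInstance
  obtain ⟨ht1, hf1, hr1⟩ := hCMP k L (EE k L) (LL k L) (phi k L) (phi_alg k L) (adjoin_phi k L) t
    ht hfin
  obtain ⟨s, hs, hsep, hfs, hrs⟩ := hSEP p (EE k L) (LL k L) (phi k L t) ht1 hf1
  obtain ⟨inst, htow, hfin2, hsep2, hrank⟩ := exists_ratAlgSep (EE k L) (LL k L) s hs hsep hfs
  have hn2 : Module.finrank (RatFunc (EE k L)) (LL k L) ≤ n := by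
    rw [hrank]
    exact (hrs.trans hr1).trans hn
  have hPA := hA p (EE k L) (LL k L) n d hn2 hd hdp
  have hPB := hB p (EE k L) (LL k L) n d hn2 hd hdp
  obtain ⟨Q, -⟩ := exists_placeData (EE k L) (LL k L) (fun x hx => by
    haveI := IntermediateField.isAlgebraic_adjoin_simple hx.isIntegral
    have h1 := IntermediateField.eq_bot_of_isAlgClosed_of_isAlgebraic
      (IntermediateField.adjoin (EE k L) {x})
    have h2 := IntermediateField.mem_adjoin_simple_self (EE k L) x
    rw [h1, IntermediateField.mem_bot] at h2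
    exact h2)
  have hPA2 : PA p (EE k L) (LL k L) d (NA' n d + 2) := fun f P h1 h2 h3 h4 =>
    hPA f P h1 h2 h3 (by omega)
  set f' := f.map (phi k L) with hf'
  set P' := P.image (phi k L) with hP'
  have hcard : P'.card = P.card := Finset.card_image_of_injective _ (phi k L).injective
  have hfd' : f'.natDegree = d := by rw [hf', natDegree_map, hfd]
  have hst' : ∀ z ∈ P', f'.eval z ∈ P' := by
    intro z hz
    obtain ⟨x, hx, rfl⟩ := Finset.mem_image.mp hz
    rw [hf', eval_map_apply]
    exact Finset.mem_image.mpr ⟨_, hst x hx, rfl⟩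
  have hiso' : ¬ Iso (EE k L) f' := by
    intro hI
    obtain ⟨x₀, h₀, x₁, h₁, hne⟩ := Finset.one_lt_card.mp hP2
    apply hiso
    refine ⟨x₁ - x₀, x₀, sub_ne_zero.mpr (Ne.symm hne), fun m => ?_⟩
    obtain ⟨c, hc⟩ := iso_two p Q f' (by rw [hfd']; exact hd) P' hst' hI (phi k L x₀)
      (phi k L x₁) (Finset.mem_image.mpr ⟨x₀, h₀, rfl⟩) (Finset.mem_image.mpr ⟨x₁, h₁, rfl⟩)
      (fun h => hne ((phi k L).injective h).symm) m
    apply alg_of_phi k L _ c
    rw [hc, ← map_sub, hf', ← aff_map, coeff_map]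
  rw [← hcard]
  exact hASM p (EE k L) (LL k L) d (NA' n d + 2) (MB n d) hd hdp (by omega) hPA2 hPB
    (inter_const p hp Q) f' P' hfd' hst' hiso'

end Pool.Agent.Y706.SB
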