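import Mathlib
import Pool.Agent.Y706.SB.Stm
import Pool.Agent.Y706.SB.Alg
import Pool.Agent.Y706.SB.UG.D9
import Pool.Agent.W277.UD.Prim

/-!
# Large stable sets
-/

namespace Pool.Agent.Y706.SB

open Polynomial Pool.Agent.TH951.W.UB Pool.Agent.Y706.SB.UG Finset PlaceData

universe u w

/-- The exponent in the bound. -/
def JJ (d n : ℕ) : ℕ := 2 * (1 + (8 * d + 16 * n + 15) * d ^ (32 * d ^ 2 * (d + 1)))

/-- the bound -/
def NA (n d : ℕ) : ℕ :=
  d ^ (12 * JJ d (4 * n ^ 3)) + 8 * (2 * d + 1) * (d + 1) * d ^ JJ d (4 * n ^ 3)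

lemma natA (d P T E : ℕ) (hd : 2 ≤ d) (hT : T ≤ P)
    (h : 2 * (d + 1) * P < 2 * (d + 1) * (T + 2 * E) + P)
    (hP : 8 * (2 * d + 1) * (d + 1) * E ≤ P) :
    2 * d * P ≤ (2 * d + 1) * T := by
  have h1 : (2 * d + 1) * P < 2 * (d + 1) * T + 4 * (d + 1) * E := by nlinarith
  have h2 : (2 * d + 1) * ((2 * d + 1) * P) ≤
      (2 * d + 1) * (2 * (d + 1) * T + 4 * (d + 1) * E) := Nat.mul_le_mul_left _ h1.le
  have h3 : (2 * d + 1) * (2 * (d + 1) * T + 4 * (d + 1) * E) =
      2 * (d + 1) * ((2 * d + 1) * T) + 4 * (2 * d + 1) * (d + 1) * E := by ring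
  have h4 : (2 * d + 1) * ((2 * d + 1) * P) = 2 * (d + 1) * (2 * d * P) + P := by ring
  rw [h3, h4] at h2
  have h5 : 2 * (d + 1) * (2 * d * P) ≤ 2 * (d + 1) * ((2 * d + 1) * T) := by
    have h6 : 8 * (2 * d + 1) * (d + 1) * E = 2 * (4 * (2 * d + 1) * (d + 1) * E) := by ring
    omega
  exact Nat.le_of_mul_le_mul_left h5 (by omega)

lemma natB (d P T E c : ℕ) (hd : 2 ≤ d) (hc : c + T = P) (hE : 1 ≤ E)
    (h : 2 * (d + 1) * P < 2 * (d + 1) * (T + 2 * E) + P)
    (hP : 8 * (2 * d + 1) * (d + 1) * E ≤ P) :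
    d + (d + 1) * c < P := by
  subst hc
  have h1 : 2 * ((d + 1) * c) < 4 * (d + 1) * E + (c + T) := by nlinarith
  have h2 : 8 * (2 * d + 1) * (d + 1) * E = 2 * (4 * (d + 1) * E) + (16 * d * (d + 1) * E) := by
    ring
  have h3 : 2 * d ≤ 16 * d * (d + 1) * E := by
    have : 2 * d * 1 ≤ 2 * d * (8 * (d + 1) * E) := Nat.mul_le_mul_left _ (by nlinarith)
    nlinarith
  omega

theorem t_A (hLB : S_LB.{u, w}) : S_A.{u, w} := by
  classical
  refine ⟨NA, ?_⟩
  intro p hp k L _ _ _ _ _ _ _ _ _ _ n d hn hd hdp f P hfd hst hiso hN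
  set n' := 4 * n ^ 3 with hn'
  set E := d ^ JJ d n' with hE
  have hcon : d ^ (12 * JJ d n') ≤ P.card := le_trans (Nat.le_add_right _ _) hN
  have hcon2 : 8 * (2 * d + 1) * (d + 1) * E ≤ P.card := le_trans (Nat.le_add_left _ _) hN
  have hJ2 : 2 ≤ JJ d n' := by
    unfold JJ
    omega
  have hE1 : 1 ≤ E := Nat.one_le_pow _ _ (by omega)
  have hdN : d < P.card := by
    refine lt_of_lt_of_le ?_ hcon
    calc d = d ^ 1 := (pow_one _).symm
      _ < d ^ (12 * JJ d n') := Nat.pow_lt_pow_right (by omega) (by omega)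
  obtain ⟨x₀, hx₀, x₁, hx₁, hne⟩ := Finset.one_lt_card.mp (by omega : 1 < P.card)
  set y := x₁ - x₀ with hy
  have hy0 : y ≠ 0 := sub_ne_zero.mpr (Ne.symm hne)
  set f0 := aff y x₀ f with hf0
  set P0 := P.image fun x => y⁻¹ * (x - x₀) with hP0
  have hinj : Function.Injective fun x : L => y⁻¹ * (x - x₀) := by
    intro a b hab
    have h1 := mul_left_cancel₀ (inv_ne_zero hy0) hab
    exact sub_left_injective h1
  have hcard0 : P0.card = P.card := Finset.card_image_of_injective _ hinj
  have hst0 : ∀ z ∈ P0, f0.eval z ∈ P0 := by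
    intro z hz
    obtain ⟨x, hx, rfl⟩ := Finset.mem_image.mp hz
    rw [hf0, aff_eval y x₀ hy0]
    exact Finset.mem_image.mpr ⟨f.eval x, hst x hx, rfl⟩
  have hfd0 : f0.natDegree = d := by rw [hf0, aff_natDegree y x₀ hy0 f, hfd]
  have hdc : d < P0.card := by omega
  set L0 := IntermediateField.adjoin (RatFunc k) (P0 : Set L) with hL0
  have hPL : ∀ z ∈ P0, z ∈ L0 := fun z hz => IntermediateField.subset_adjoin _ _ hz
  obtain ⟨g0, hg0⟩ := const_poly (k := L0) (K := L) (f := f0) (d := d) hfd0.le (P := P0)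
    (fun z hz => ⟨⟨z, hPL z hz⟩, rfl⟩) (fun z hz => ⟨⟨_, hPL _ (hst0 z hz)⟩, rfl⟩) hdc
  set P1 : Finset L0 := P0.subtype (fun x => x ∈ L0) with hP1
  have hcard1 : P1.card = P.card := by
    rw [hP1, Finset.card_subtype, Finset.filter_true_of_mem hPL, hcard0]
  have hmem1 : ∀ z : L0, z ∈ P1 ↔ (z : L) ∈ P0 := fun z => Finset.mem_subtype
  have hgd : g0.natDegree = d := by
    rw [← hfd0, ← hg0, natDegree_map]
  have hst1 : ∀ z ∈ P1, g0.eval z ∈ P1 := by
    intro z hz
    rw [hmem1] at hz ⊢
    have h1 : ((g0.eval z : L0) : L) = f0.eval (z : L) := by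
      rw [← hg0]
      exact (eval_map_apply (algebraMap L0 L) z).symm
    rw [h1]
    exact hst0 _ hz
  by_cases hcst : ∀ z ∈ P0, ∃ c : k, algebraMap k L c = z
  · exfalso
    obtain ⟨g, hg⟩ := const_poly (k := k) (f := f0) (d := d) hfd0.le (P := P0) hcst
      (fun z hz => hcst _ (hst0 z hz)) hdc
    exact hiso ⟨y, x₀, hy0, fun m => ⟨g.coeff m, by rw [← hf0, ← hg, coeff_map]⟩⟩
  · push Not at hcst
    obtain ⟨z, hz, hzc⟩ := hcst
    have hst' : IsScalarTower k L0 L := IsScalarTower.of_algebraMap_eq fun c => rfl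
    haveI : CharP L0 p := (RingHom.charP_iff (algebraMap k L0) (algebraMap k L0).injective p).mp
      inferInstance
    have hgenP : IntermediateField.adjoin (RatFunc k) (P1 : Set L0) = ⊤ := by
      apply IntermediateField.lift_injective
      rw [IntermediateField.lift_adjoin, IntermediateField.lift_top]
      have h1 : L0.val '' (P1 : Set L0) = (P0 : Set L) := by
        ext x
        constructor
        · rintro ⟨y, hy, rfl⟩
          exact (hmem1 y).mp hy
        · intro hx
          exact ⟨⟨x, hPL x hx⟩, (hmem1 _).mpr hx, rfl⟩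
      have h2 : (Subtype.val : L0 → L) '' (P1 : Set L0) = (P0 : Set L) := h1
      rw [h2]
    obtain ⟨u, huP, hugen, huc⟩ := Pool.Agent.W277.UD.exists_gen (k := k) (F := RatFunc k)
      (E := L0) (P1 : Set L0)
      hgenP ⟨z, hPL z hz⟩ ((hmem1 _).mpr hz) (by
        intro c hc
        exact hzc c (congrArg Subtype.val hc).symm)
    obtain ⟨Q, hker, hQ⟩ := hLB p k L0 u hugen huc
    have h0P : (0 : L0) ∈ P1 := by
      rw [hmem1, hP0, Finset.mem_image]
      exact ⟨x₀, hx₀, by simp⟩
    have h1P : (1 : L0) ∈ P1 := by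
      rw [hmem1, hP0, Finset.mem_image]
      exact ⟨x₁, hx₁, inv_mul_cancel₀ hy0⟩
    have hu0 : u ≠ 0 := by
      have := huc 0
      rwa [map_zero] at this
    have hn0 : Module.finrank (RatFunc k) L0 ≤ n :=
      le_trans (Submodule.finrank_le L0.toSubalgebra.toSubmodule) hn
    have hg00 : g0 ≠ 0 := by
      rintro rfl
      rw [natDegree_zero] at hgd
      omega
    -- there is an affine relation on a large subset
    have hrel : ∃ T ⊆ P1, ∃ α β : L0, (∀ x ∈ T, Q.D x = α * x + β) ∧
        2 * (d + 1) * P.card < 2 * (d + 1) * (T.card + 2 * E) + P.card := by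
      by_contra hno'
      push Not at hno'
      have hno := global2 p Q g0 (by rw [hgd]; exact hdp) (by rw [hgd]; exact hd) P1 hst1 n' _ _
        (JJ d n') rfl rfl
        (by rw [hgd]; rfl) (by rw [hgd, hcard1]; exact hcon) 0 1 h0P h1P one_ne_zero (by
          intro T hT α β hD
          rw [hgd, hcard1]
          exact not_lt.mpr (hno' T hT α β hD)) (by
          intro S q hq0 hq hqS
          have hpole : ∀ v, (Q.pole v u : ℝ) ≤ q v := by
            intro v
            have h1 : Q.G v (-⌊q v⌋) u := by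
              have hspan : ∀ x : L0, x ∈ Submodule.span k (P1 : Set L0) → Q.G v (-⌊q v⌋) x := by
                intro x hx
                induction hx using Submodule.span_induction with
                | mem x hx =>
                  intro hx0
                  have h2 := hq v x hx hx0
                  rw [sub_zero, sub_zero, ord_one, Int.cast_zero, zero_sub] at h2
                  have h3 : -Q.ord v x ≤ ⌊q v⌋ := by
                    rw [Int.le_floor]
                    push_cast
                    exact h2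
                  linarith
                | zero => exact G_zero
                | add x y _ _ hx hy => exact G_add hx hy
                | smul c x _ hx =>
                  rw [Algebra.smul_def]
                  simpa using G_mul (G_alg (Q := Q) (v := v) c) hx
              exact hspan u huP
            have h2 := h1 hu0
            have h3 : Q.pole v u ≤ ⌊q v⌋ := by
              rw [pole_of_ne hu0]
              apply max_le
              · rw [Int.le_floor]
                simpa using hq0 v
              · linarith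
            calc (Q.pole v u : ℝ) ≤ (⌊q v⌋ : ℝ) := by exact_mod_cast h3
              _ ≤ q v := Int.floor_le _
          have h1 := hQ S (by
            intro v hv
            have h2 := hpole v
            rw [hqS v hv] at h2
            have h3 : Q.pole v u ≤ 0 := by exact_mod_cast h2
            exact le_antisymm h3 (pole_nonneg v u))
          have h2 : (Q.lossT : ℝ) ≤ 8 * (Module.finrank (RatFunc k) L0 : ℝ) ^ 3 *
              ∑ v ∈ S, (Q.wt v : ℝ) * (Q.pole v u : ℝ) := by
            exact_mod_cast h1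
          refine h2.trans ?_
          have h3 : ∑ v ∈ S, (Q.wt v : ℝ) * (Q.pole v u : ℝ) ≤ ∑ v ∈ S, (Q.wt v : ℝ) * q v :=
            Finset.sum_le_sum fun v _ => mul_le_mul_of_nonneg_left (hpole v)
              (by exact_mod_cast Q.wt_nonneg v)
          have h4 : (0 : ℝ) ≤ ∑ v ∈ S, (Q.wt v : ℝ) * (Q.pole v u : ℝ) :=
            Finset.sum_nonneg fun v _ => mul_nonneg (by exact_mod_cast Q.wt_nonneg v)
              (by exact_mod_cast pole_nonneg v u)
          have h5 : (Module.finrank (RatFunc k) L0 : ℝ) ≤ n := by exact_mod_cast hn0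
          have h6 : (Module.finrank (RatFunc k) L0 : ℝ) ^ 3 ≤ (n : ℝ) ^ 3 :=
            pow_le_pow_left₀ (by positivity) h5 3
          have h7 : (2 : ℝ) * (n' : ℝ) = 8 * (n : ℝ) ^ 3 := by
            rw [hn']
            push_cast
            ring
          rw [h7]
          apply mul_le_mul _ h3 h4 (by positivity)
          linarith)
      obtain ⟨S, -, hSA, -, hSP⟩ := exists_S Q g0 hg00 P1
      obtain ⟨y', b', hy', g, hg⟩ := iso_of_no_bad Q g0 hg00 P1 hst1 S hSA hSP hno
        (by omega) (by omega)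
      refine hiso ⟨y * (y' : L), y * (b' : L) + x₀, mul_ne_zero hy0 (by simpa using hy'),
        fun m => ⟨g.coeff m, ?_⟩⟩
      rw [← aff_aff y x₀ (y' : L) (b' : L) hy0 f, ← hf0, ← hg0]
      have h2 := aff_map (algebraMap L0 L) y' b' g0
      rw [← hg, Polynomial.map_map] at h2
      have h3 := congrArg (fun q : L[X] => q.coeff m) h2
      simp only [coeff_map] at h3
      exact h3
    obtain ⟨T, hTP, α, β, hT, hlt⟩ := hrel
    have hTc : T.card ≤ P.card := by
      rw [← hcard1]
      exact Finset.card_le_card hTP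
    have hmain := natA d P.card T.card E hd hTc hlt hcon2
    have hsd : (P1 \ T).card + T.card = P.card := by
      rw [← hcard1]
      exact Finset.card_sdiff_add_card_eq_card hTP
    have hcnt := natB d P.card T.card E (P1 \ T).card hd hsd hE1 hlt hcon2
    have htwo := card_two g0 (by omega) P1 T hst1 hTP
    rw [hgd, hcard1] at htwo
    have hbig : g0.natDegree < (T.filter fun x => g0.eval x ∈ T).card := by
      rw [hgd]
      omega
    have hT2 : 1 < T.card := by
      have h1 := Finset.card_filter_le T (fun x => g0.eval x ∈ T)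
      omega
    obtain ⟨z₀, hz₀, z₁, hz₁, hzne⟩ := Finset.one_lt_card.mp hT2
    obtain ⟨hk1, hk2⟩ := ker_of_affine Q.D g0 T α β hT z₀ z₁ hz₀ hz₁ (Ne.symm hzne) hbig
    -- back to `L`
    have hback : ∀ z : L0, z ∈ P1 → y * (z : L) + x₀ ∈ P := by
      intro z hz
      rw [hmem1] at hz
      obtain ⟨x, hx, hxz⟩ := Finset.mem_image.mp hz
      rw [← hxz, mul_inv_cancel_left₀ hy0, sub_add_cancel]
      exact hx
    have hsub : ∀ z z' : L0, (y * (z : L) + x₀) - (y * (z' : L) + x₀) = y * ((z : L) - z') := by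
      intro z z'
      ring
    refine ⟨y * (z₀ : L) + x₀, hback _ (hTP hz₀), y * (z₁ : L) + x₀, hback _ (hTP hz₁), ?_, ?_,
      T.image fun z : L0 => y * (z : L) + x₀, ?_, ?_, ?_⟩
    · intro h
      apply hzne
      apply Subtype.ext
      have h1 := add_right_cancel h
      exact (mul_left_cancel₀ hy0 h1).symm
    · intro m
      obtain ⟨c, hc⟩ := hker _ (hk2 m)
      refine ⟨(c : L), ?_⟩
      rw [hsub]
      have h1 : aff (y * ((z₁ : L) - z₀)) (y * (z₀ : L) + x₀) f = aff ((z₁ : L) - z₀) z₀ f0 := by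
        rw [hf0, aff_aff y x₀ _ _ hy0]
      have h2 := aff_map (algebraMap L0 L) (z₁ - z₀) z₀ g0
      rw [hg0] at h2
      have h3 : algebraMap L0 L (z₁ - z₀) = (z₁ : L) - z₀ := rfl
      have h4 : algebraMap L0 L z₀ = (z₀ : L) := rfl
      rw [h3, h4] at h2
      rw [h1, ← h2, coeff_map, ← hc]
      rfl
    · intro x hx
      obtain ⟨z, hz, rfl⟩ := Finset.mem_image.mp hx
      exact hback z (hTP hz)
    · intro x hx
      obtain ⟨z, hz, rfl⟩ := Finset.mem_image.mp hx
      obtain ⟨c, hc⟩ := hker _ (hk1 z hz)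
      refine ⟨(c : L), ?_⟩
      have h1 : ((c : L)) ^ p = ((z₁ : L) - z₀)⁻¹ * ((z : L) - z₀) := by
        have h2 := congrArg (fun w : L0 => (w : L)) hc
        simpa using h2
      rw [hsub, hsub, h1, mul_inv]
      field_simp
    · rw [Finset.card_image_of_injective]
      · exact hmain
      · intro a b hab
        apply Subtype.ext
        exact mul_left_cancel₀ hy0 (add_right_cancel hab)

end Pool.Agent.Y706.SB
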